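import Pool.Agent.Lib.MP_b5021c_nt.E1.H80.Iface

/-!
# MP_b5021c_nt, E1 for all `θ ≥ 2` (finding 3478): row KEY
-/

namespace Pool.Agent.B5.Nr.Key

open Submodule Module
open scoped LaurentPolynomial

variable {V : Type} [AddCommGroup V] [Module ℚ V]

/-- The span of the direction and of the exponents of the closing. -/
noncomputable def UU (c : V →₀ RO ℤ) (β : V) (l : Dual ℚ V) (y : (RO ℤ)ˣ) : Submodule ℚ V :=
  span ℚ (insert β (Es (clo l β y c)))

omit [Module ℚ V] in
theorem es_fin (c : V →₀ RO ℤ) : (Es c).Finite :=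
  c.support.finite_toSet.subset fun _ h => Finsupp.mem_support_iff.mpr h.2

instance (c : V →₀ RO ℤ) : FiniteDimensional ℚ (span ℚ (Es c)) :=
  FiniteDimensional.span_of_finite ℚ (es_fin c)

instance (c : V →₀ RO ℤ) (β : V) (l : Dual ℚ V) (y : (RO ℤ)ˣ) :
    FiniteDimensional ℚ (UU c β l y) :=
  FiniteDimensional.span_of_finite ℚ ((es_fin _).insert _)

theorem fr_insert (W : Submodule ℚ V) [FiniteDimensional ℚ W] {x : V} (hx : x ∉ W) :
    finrank ℚ ↥(W ⊔ span ℚ {x}) = finrank ℚ W + 1 := by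
  have h0 : x ≠ 0 := fun h => hx (h ▸ W.zero_mem)
  have h1 := finrank_sup_add_finrank_inf_eq W (span ℚ {x})
  have h2 : W ⊓ span ℚ {x} = ⊥ := by
    rw [eq_bot_iff]
    rintro v ⟨hv1, hv2⟩
    obtain ⟨t, rfl⟩ := mem_span_singleton.mp hv2
    by_cases ht : t = 0
    · simp [ht]
    · exact absurd ((smul_mem_iff W ht).mp hv1) hx
  rw [h2, finrank_bot, finrank_span_singleton h0] at h1
  omega

section

variable (hcla : ClaS) {c : V →₀ RO ℤ}
include hcla

theorem clo_mem {β : V} {l : Dual ℚ V} {y : (RO ℤ)ˣ} (hl : Vf (Es c) β l) {v : V}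
    (hv : v ∈ Es (clo l β y c)) : l v = 0 ∧
      c v + c (v + β) * (y : RO ℤ) + c (v - β) * ((y⁻¹ : (RO ℤ)ˣ) : RO ℤ) ≠ 0 := by
  obtain ⟨h1, h2⟩ := hcla V c β l y hl
  have h3 : l v = 0 := by
    by_contra h
    exact hv.2 (h1 v h)
  exact ⟨h3, by rw [← h2 v h3]; exact hv.2⟩

theorem clo_mem' {β : V} {l : Dual ℚ V} {y : (RO ℤ)ˣ} (hl : Vf (Es c) β l) {v : V}
    (hv : v ∈ Es (clo l β y c)) : l v = 0 ∧
      (v ∈ Es c ∨ v + β ∈ Es c ∨ v - β ∈ Es c) := by
  obtain ⟨h1, h2⟩ := clo_mem hcla hl hv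
  refine ⟨h1, ?_⟩
  by_cases h3 : c v = 0
  · by_cases h4 : c (v + β) = 0
    · by_cases h5 : c (v - β) = 0
      · exact absurd (by rw [h3, h4, h5]; ring) h2
      · right; right
        refine ⟨fun h => ?_, h5⟩
        have := congrArg l h
        rw [map_sub, h1, hl.1, map_zero] at this
        norm_num at this
    · right; left
      refine ⟨fun h => ?_, h4⟩
      have := congrArg l h
      rw [map_add, h1, hl.1, map_zero] at this
      norm_num at this
  · exact Or.inl ⟨hv.1, h3⟩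

theorem UU_le {β : V} {l : Dual ℚ V} {y : (RO ℤ)ˣ} (hβ : β ∈ Es c) (hl : Vf (Es c) β l) :
    UU c β l y ≤ span ℚ (Es c) := by
  have hb : β ∈ span ℚ (Es c) := subset_span hβ
  refine span_le.mpr ?_
  rintro v (rfl | hv)
  · exact hb
  · rcases (clo_mem' hcla hl hv).2 with h | h | h
    · exact subset_span h
    · have := sub_mem (subset_span h : v + β ∈ span ℚ (Es c)) hb
      simpa using this
    · have := add_mem (subset_span h : v - β ∈ span ℚ (Es c)) hb
      simpa using this

theorem fr_UU {β : V} {l : Dual ℚ V} {y : (RO ℤ)ˣ} (hl : Vf (Es c) β l) :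
    finrank ℚ (UU c β l y) = rkc (clo l β y c) + 1 := by
  have h1 : β ∉ span ℚ (Es (clo l β y c)) := by
    intro h
    have h2 : span ℚ (Es (clo l β y c)) ≤ LinearMap.ker l :=
      span_le.mpr fun v hv => (clo_mem hcla hl hv).1
    have h3 : l β = 0 := h2 h
    rw [hl.1] at h3
    norm_num at h3
  rw [UU, span_insert, sup_comm, fr_insert _ h1]
  rfl

end

/-- Two exponents at distance `2 β` are dependent. -/
theorem two (hvfe : VfeS) {E : Set V} (hE : UM E) {p q β : V} (hp : p ∈ E) (hq : q ∈ E)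
    (hβ : β ∈ E) (hpq : q = p + (2 : ℚ) • β) (hp0 : p ≠ 0) (hi : β ∉ span ℚ {p}) : False := by
  have h1 : LinearIndepOn ℚ id ({p, q} : Set V) := by
    refine linearIndepOn_id_pair hp0 fun t ht => hi ?_
    rw [mem_span_singleton]
    refine ⟨(t - 1) / 2, ?_⟩
    rw [hpq] at ht
    have h2 : (2 : ℚ) • β = (t - 1) • p := by rw [sub_smul, one_smul, ht]; abel
    have h3 : β = (1 / 2 : ℚ) • (2 : ℚ) • β := by rw [smul_smul]; norm_num
    rw [h3, h2, smul_smul]
    congr 1
    ring
  have hne : p ≠ q := by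
    rintro rfl
    have h2 : (2 : ℚ) • β = 0 := by simpa using hpq
    have h3 : β = 0 := by
      rcases smul_eq_zero.mp h2 with h | h
      · norm_num at h
      · exact h
    exact hi (h3 ▸ zero_mem _)
  obtain ⟨l₁, l₂, -, h3, -, h5⟩ := (hvfe V E hE).2 p hp q hq h1 hne
  have h6 : (2 : ℚ) * l₂ β = 1 := by
    have := congrArg l₂ hpq
    rw [map_add, map_smul, h5, h3.1, smul_eq_mul] at this
    linarith
  rcases h3.2 β hβ with h | h | h <;> rw [h] at h6 <;> norm_num at h6

/-- Coordinates with respect to independent triples. -/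
theorem triple {E : Set V} (hE : UM E) {g₁ g₂ β v : V} (h1 : g₁ ∈ E) (h2 : g₂ ∈ E) (hβ : β ∈ E)
    (hi : LinearIndepOn ℚ id ({g₁, g₂} : Set V)) (hi' : β ∉ span ℚ ({g₁, g₂} : Set V)) (hv : v ∈ E)
    {s t k : ℚ} (he : v = s • g₁ + t • g₂ + k • β) : k = 0 ∨ k = 1 ∨ k = -1 := by
  obtain ⟨f, hf, hk⟩ := exists_le_ker_of_notMem hi'
  set l : Dual ℚ V := (f β)⁻¹ • f with hl
  have hlβ : l β = 1 := by
    simp only [hl, LinearMap.smul_apply, smul_eq_mul]
    exact inv_mul_cancel₀ hf
  have hl1 : l g₁ = 0 := by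
    have : f g₁ = 0 := hk (subset_span (by simp))
    simp only [hl, LinearMap.smul_apply, smul_eq_mul, this, mul_zero]
  have hl2 : l g₂ = 0 := by
    have : f g₂ = 0 := hk (subset_span (by simp))
    simp only [hl, LinearMap.smul_apply, smul_eq_mul, this, mul_zero]
  have hlv : l v = k := by
    rw [he, map_add, map_add, map_smul, map_smul, map_smul, hl1, hl2, hlβ]
    simp
  have hB : LinearIndepOn ℚ id (insert β ({g₁, g₂} : Set V)) := hi.id_insert hi'
  have := hE (insert β ({g₁, g₂} : Set V)) ?_ hB l β (Set.mem_insert _ _) hlβ ?_ v hv ?_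
  · rwa [hlv] at this
  · rintro x (rfl | rfl | rfl) <;> assumption
  · rintro x (rfl | rfl | rfl) hx
    · exact absurd rfl hx
    · exact hl1
    · exact hl2
  · rw [he]
    refine add_mem (add_mem ?_ ?_) ?_
    · exact smul_mem _ _ (subset_span (by simp))
    · exact smul_mem _ _ (subset_span (by simp))
    · exact smul_mem _ _ (subset_span (by simp))

/-! ## Killed classes -/

section

variable (hcla : ClaS) (hvfe : VfeS) {c : V →₀ RO ℤ}
include hcla

/-- An exponent outside `UU` is killed. -/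
theorem kill0 {β : V} {l : Dual ℚ V} {y : (RO ℤ)ˣ} (hl : Vf (Es c) β l) {v : V}
    (hv : v ∉ UU c β l y) : c (v - l v • β) + c (v - l v • β + β) * (y : RO ℤ) +
      c (v - l v • β - β) * ((y⁻¹ : (RO ℤ)ˣ) : RO ℤ) = 0 := by
  have hb : β ∈ UU c β l y := subset_span (Set.mem_insert _ _)
  have h0 : l (v - l v • β) = 0 := by
    rw [map_sub, map_smul, hl.1, smul_eq_mul, mul_one, sub_self]
  rw [← (hcla V c β l y hl).2 _ h0]
  by_contra h
  have h1 : v - l v • β ∈ UU c β l y := by
    by_cases h2 : v - l v • β = 0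
    · rw [h2]; exact zero_mem _
    · exact subset_span (Set.mem_insert_of_mem _ ⟨h2, h⟩)
  apply hv
  have := add_mem h1 (smul_mem _ (l v) hb)
  simpa using this

include hvfe in
theorem kill (hE : UM (Es c)) {β : V} {l : Dual ℚ V} {y : (RO ℤ)ˣ} (hβ : β ∈ Es c)
    (hl : Vf (Es c) β l) {v : V} (hvE : v ∈ Es c) (hv : v ∉ UU c β l y) :
    v + β ∈ Es c ∨ v - β ∈ Es c := by
  have hb : β ∈ UU c β l y := subset_span (Set.mem_insert _ _)
  have hk := kill0 hcla hl hv
  -- points of the line are not zero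
  have hne : ∀ t : ℚ, v + t • β ≠ 0 := by
    intro t h
    apply hv
    have h1 : v = -(t • β) := eq_neg_of_add_eq_zero_left h
    rw [h1]
    exact neg_mem (smul_mem _ _ hb)
  have hmem : ∀ t : ℚ, c (v + t • β) ≠ 0 → v + t • β ∈ Es c := fun t h => ⟨hne t, h⟩
  have hsp : ∀ t : ℚ, β ∉ span ℚ {v + t • β} := by
    intro t h
    obtain ⟨r, hr⟩ := mem_span_singleton.mp h
    have hr0 : r ≠ 0 := by
      rintro rfl
      rw [zero_smul] at hr
      exact hβ.1 hr.symm
    apply hv
    have h1 : v + t • β = r⁻¹ • β := by rw [← hr, inv_smul_smul₀ hr0, hr]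
    have h2 : v = (r⁻¹ - t) • β := by linear_combination (norm := module) h1
    rw [h2]
    exact smul_mem _ _ hb
  have h2 : ∀ t s : ℚ, s = t + 2 → c (v + t • β) ≠ 0 → c (v + s • β) ≠ 0 → False := by
    intro t s hs h3 h4
    exact two hvfe hE (hmem t h3) (hmem s h4) hβ (by rw [hs]; module) (hne t) (hsp t)
  have hc : c v ≠ 0 := hvE.2
  have hyu : (y : RO ℤ) ≠ 0 := y.ne_zero
  have hyi : ((y⁻¹ : (RO ℤ)ˣ) : RO ℤ) ≠ 0 := (y⁻¹).ne_zero
  have e0 : v = v + (0 : ℚ) • β := by module
  have e1 : v + β = v + (1 : ℚ) • β := by module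
  have e2 : v - β = v + (-1 : ℚ) • β := by module
  by_contra hcon
  rw [not_or] at hcon
  have c1 : c (v + β) = 0 := by
    by_contra h
    exact hcon.1 (e1 ▸ hmem 1 (e1 ▸ h))
  have c2 : c (v - β) = 0 := by
    by_contra h
    exact hcon.2 (e2 ▸ hmem (-1) (e2 ▸ h))
  rcases hl.2 v hvE with h | h | h
  · rw [h, zero_smul, sub_zero, c1, c2, zero_mul, zero_mul, add_zero, add_zero] at hk
    exact hc hk
  · rw [h, one_smul, c2, zero_add, sub_add_cancel] at hk
    have h3 : c (v - β - β) ≠ 0 := by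
      intro h3
      rw [h3, zero_mul, add_zero] at hk
      exact mul_ne_zero hc hyu hk
    have e3 : v - β - β = v + (-2 : ℚ) • β := by module
    exact h2 (-2) 0 (by norm_num) (e3 ▸ h3) (e0 ▸ hc)
  · have e4 : v - (-1 : ℚ) • β = v + β := by module
    rw [h, e4, c1, zero_add, add_sub_cancel_right] at hk
    have h3 : c (v + β + β) ≠ 0 := by
      intro h3
      rw [h3, zero_mul, zero_add] at hk
      exact mul_ne_zero hc hyi hk
    have e3 : v + β + β = v + (2 : ℚ) • β := by module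
    exact h2 0 2 (by norm_num) (e0 ▸ hc) (e3 ▸ h3)

include hvfe in
/-- Every exponent outside `UU` is in a pair. -/
theorem pair (hE : UM (Es c)) {β : V} {l : Dual ℚ V} {y : (RO ℤ)ˣ} (hβ : β ∈ Es c)
    (hl : Vf (Es c) β l) {v : V} (hvE : v ∈ Es c) (hv : v ∉ UU c β l y) :
    ∃ i : ℤ, v - (i : ℚ) • β ∈ Es c ∧ v - (i : ℚ) • β + β ∈ Es c := by
  rcases kill hcla hvfe hE hβ hl hvE hv with h | h
  · exact ⟨0, by simpa using hvE, by simpa using h⟩
  · exact ⟨1, by simpa using h, by simpa using hvE⟩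

/-- `UU` does not depend on the functional. -/
theorem UU_indep_le {β : V} {l l' : Dual ℚ V} {y : (RO ℤ)ˣ}
    (hl : Vf (Es c) β l) (hl' : Vf (Es c) β l') : UU c β l' y ≤ UU c β l y := by
  have hb : β ∈ UU c β l y := subset_span (Set.mem_insert _ _)
  refine span_le.mpr ?_
  rintro v (rfl | hvE)
  · exact hb
  change v ∈ UU c β l y
  by_contra hv
  have hk := kill0 hcla hl hv
  obtain ⟨h1, h2⟩ := clo_mem hcla hl' hvE
  have hne : ∀ t : ℚ, v + t • β ≠ 0 := by
    intro t h
    apply hv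
    have h1 : v = -(t • β) := eq_neg_of_add_eq_zero_left h
    rw [h1]
    exact neg_mem (smul_mem _ _ hb)
  have hmem : ∀ t : ℚ, c (v + t • β) ≠ 0 → (t = 0 ∨ t = 1 ∨ t = -1) ∧
      (l v + t = 0 ∨ l v + t = 1 ∨ l v + t = -1) := by
    intro t h
    have h3 : v + t • β ∈ Es c := ⟨hne t, h⟩
    have h4 := hl.2 _ h3
    have h5 := hl'.2 _ h3
    rw [map_add, map_smul, hl.1, smul_eq_mul, mul_one] at h4
    rw [map_add, map_smul, hl'.1, smul_eq_mul, mul_one, h1, zero_add] at h5
    exact ⟨h5, h4⟩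
  have hz : ∀ t : ℚ, ¬ ((t = 0 ∨ t = 1 ∨ t = -1) ∧
      (l v + t = 0 ∨ l v + t = 1 ∨ l v + t = -1)) → c (v + t • β) = 0 := by
    intro t h
    by_contra h3
    exact h (hmem t h3)
  have hj : l v = 0 ∨ l v = 1 ∨ l v = -1 ∨ l v = 2 ∨ l v = -2 := by
    by_contra hj
    apply h2
    have k0 : c v = 0 := by
      have := hz 0 (by rintro ⟨-, h | h | h⟩ <;> apply hj <;> first
        | (left; linarith) | (right; left; linarith) | (right; right; left; linarith))
      rwa [zero_smul, add_zero] at this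
    have k1 : c (v + β) = 0 := by
      have := hz 1 (by rintro ⟨-, h | h | h⟩ <;> apply hj <;> first
        | (left; linarith) | (right; right; left; linarith)
        | (right; right; right; right; linarith))
      rwa [one_smul] at this
    have k2 : c (v - β) = 0 := by
      have := hz (-1) (by rintro ⟨-, h | h | h⟩ <;> apply hj <;> first
        | (left; linarith) | (right; left; linarith)
        | (right; right; right; left; linarith))
      rwa [neg_one_smul, ← sub_eq_add_neg] at this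
    rw [k0, k1, k2]
    ring
  have hyy : (y : RO ℤ) * ((y⁻¹ : (RO ℤ)ˣ) : RO ℤ) = 1 := y.mul_inv
  apply h2
  rcases hj with h | h | h | h | h
  · rw [h, zero_smul, sub_zero] at hk
    exact hk
  · have k3 : c (v - β - β) = 0 := by
      have := hz (-2) (by norm_num)
      rwa [show v + (-2 : ℚ) • β = v - β - β by module] at this
    have k1 : c (v + β) = 0 := by
      have := hz 1 (by rw [h]; norm_num)
      rwa [one_smul] at this
    rw [h, one_smul, sub_add_cancel, k3, zero_mul, add_zero] at hk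
    rw [k1, zero_mul, add_zero]
    have h5 : (c v + c (v - β) * ((y⁻¹ : (RO ℤ)ˣ) : RO ℤ)) =
        (c (v - β) + c v * (y : RO ℤ)) * ((y⁻¹ : (RO ℤ)ˣ) : RO ℤ) := by
      rw [add_mul, mul_assoc, hyy, mul_one, add_comm]
    rw [h5, hk, zero_mul]
  · have e4 : v - (-1 : ℚ) • β = v + β := by module
    have k3 : c (v + β + β) = 0 := by
      have := hz 2 (by norm_num)
      rwa [show v + (2 : ℚ) • β = v + β + β by module] at this
    have k1 : c (v - β) = 0 := by
      have := hz (-1) (by rw [h]; norm_num)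
      rwa [neg_one_smul, ← sub_eq_add_neg] at this
    rw [h, e4, add_sub_cancel_right, k3, zero_mul, add_zero] at hk
    rw [k1, zero_mul, add_zero]
    have h5 : (c v + c (v + β) * (y : RO ℤ)) =
        (c (v + β) + c v * ((y⁻¹ : (RO ℤ)ˣ) : RO ℤ)) * (y : RO ℤ) := by
      rw [add_mul, mul_assoc, mul_comm ((y⁻¹ : (RO ℤ)ˣ) : RO ℤ), hyy, mul_one, add_comm]
    rw [h5, hk, zero_mul]
  · have k0 : c v = 0 := by
      have := hz 0 (by rw [h]; norm_num)
      rwa [zero_smul, add_zero] at this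
    have k1 : c (v + β) = 0 := by
      have := hz 1 (by rw [h]; norm_num)
      rwa [one_smul] at this
    have k3 : c (v - (2 : ℚ) • β) = 0 := by
      have := hz (-2) (by norm_num)
      rwa [show v + (-2 : ℚ) • β = v - (2 : ℚ) • β by module] at this
    have k4 : c (v - (2 : ℚ) • β - β) = 0 := by
      have := hz (-3) (by norm_num)
      rwa [show v + (-3 : ℚ) • β = v - (2 : ℚ) • β - β by module] at this
    rw [h, k3, k4, zero_mul, add_zero, zero_add,
      show v - (2 : ℚ) • β + β = v - β by module] at hk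
    have k2 : c (v - β) = 0 := by
      rcases mul_eq_zero.mp hk with h6 | h6
      · exact h6
      · exact absurd h6 y.ne_zero
    rw [k0, k1, k2]
    ring
  · have k0 : c v = 0 := by
      have := hz 0 (by rw [h]; norm_num)
      rwa [zero_smul, add_zero] at this
    have k1 : c (v - β) = 0 := by
      have := hz (-1) (by rw [h]; norm_num)
      rwa [neg_one_smul, ← sub_eq_add_neg] at this
    have k3 : c (v - (-2 : ℚ) • β) = 0 := by
      have := hz 2 (by norm_num)
      rwa [show v + (2 : ℚ) • β = v - (-2 : ℚ) • β by module] at this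
    have k4 : c (v - (-2 : ℚ) • β + β) = 0 := by
      have := hz 3 (by norm_num)
      rwa [show v + (3 : ℚ) • β = v - (-2 : ℚ) • β + β by module] at this
    rw [h, k3, k4, zero_mul, add_zero, zero_add,
      show v - (-2 : ℚ) • β - β = v + β by module] at hk
    have k2 : c (v + β) = 0 := by
      rcases mul_eq_zero.mp hk with h6 | h6
      · exact h6
      · exact absurd h6 (y⁻¹).ne_zero
    rw [k0, k1, k2]
    ring

end

/-! ## Closings commute -/

theorem clo_single (l : Dual ℚ V) (β : V) (y : (RO ℤ)ˣ) (v : V) (p : RO ℤ) :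
    clo l β y (Finsupp.single v p) =
      Finsupp.single (v - l v • β) (p * ((y ^ ⌊l v⌋ : (RO ℤ)ˣ) : RO ℤ)) := by
  unfold clo
  rw [Finsupp.sum_single_index]
  rw [zero_mul, Finsupp.single_zero]

theorem clo_add (l : Dual ℚ V) (β : V) (y : (RO ℤ)ˣ) (c d : V →₀ RO ℤ) :
    clo l β y (c + d) = clo l β y c + clo l β y d := by
  unfold clo
  classical
  rw [Finsupp.sum_add_index']
  · intro v
    rw [zero_mul, Finsupp.single_zero]
  · intro v p q
    rw [add_mul, Finsupp.single_add]

theorem clo_zero (l : Dual ℚ V) (β : V) (y : (RO ℤ)ˣ) : clo l β y 0 = 0 := by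
  unfold clo
  exact Finsupp.sum_zero_index

theorem clo_comm (l₁ l₂ : Dual ℚ V) (β γ : V) (y x : (RO ℤ)ˣ) (h1 : l₁ γ = 0) (h2 : l₂ β = 0)
    (c : V →₀ RO ℤ) : clo l₂ γ x (clo l₁ β y c) = clo l₁ β y (clo l₂ γ x c) := by
  induction c using Finsupp.induction_linear with
  | zero => simp only [clo_zero]
  | add f g hf hg => rw [clo_add, clo_add, clo_add, clo_add, hf, hg]
  | single v p =>
    rw [clo_single, clo_single, clo_single, clo_single]
    have e1 : l₂ (v - l₁ v • β) = l₂ v := by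
      rw [map_sub, map_smul, h2, smul_zero, sub_zero]
    have e2 : l₁ (v - l₂ v • γ) = l₁ v := by
      rw [map_sub, map_smul, h1, smul_zero, sub_zero]
    rw [e1, e2]
    congr 1
    · module
    · ring

/-- The support of a closing. -/
theorem clo_supp (l : Dual ℚ V) (β : V) (y : (RO ℤ)ˣ) (c : V →₀ RO ℤ) {u : V}
    (hu : clo l β y c u ≠ 0) : ∃ v, c v ≠ 0 ∧ u = v - l v • β := by
  classical
  by_contra hcon
  push Not at hcon
  apply hu
  unfold clo
  rw [Finsupp.sum_apply]
  unfold Finsupp.sum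
  refine Finset.sum_eq_zero fun v hv => ?_
  change (Finsupp.single (v - l v • β) _ : V →₀ RO ℤ) u = 0
  rw [Finsupp.single_apply, if_neg]
  intro h
  exact hcon v (Finsupp.mem_support_iff.mp hv) h.symm

section

variable (hcla : ClaS) {c : V →₀ RO ℤ}
include hcla

/-- No cancellation: `UU` of `β` is contained in `UU` of `γ` plus `β`. -/
theorem UU_le_sup {β γ : V} {l₁ l₂ : Dual ℚ V} {y : (RO ℤ)ˣ} (x : (RO ℤ)ˣ)
    (h1 : Vf (Es c) β l₁) (h2 : Vf (Es c) γ l₂) (h12 : l₁ γ = 0) (h21 : l₂ β = 0)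
    (hγ : γ ∉ UU c β l₁ y) : UU c β l₁ y ≤ UU c γ l₂ x ⊔ span ℚ {β} := by
  have hb : β ∈ UU c β l₁ y := subset_span (Set.mem_insert _ _)
  have hbW : β ∈ UU c γ l₂ x ⊔ span ℚ {β} :=
    (le_sup_right : _ ≤ UU c γ l₂ x ⊔ span ℚ {β}) (mem_span_singleton_self β)
  have hgW : γ ∈ UU c γ l₂ x ⊔ span ℚ {β} :=
    (le_sup_left : UU c γ l₂ x ≤ _) (subset_span (Set.mem_insert _ _))
  set c' := clo l₁ β y c with hc'
  -- `l₂` is a coordinate functional for `c'`
  have h2' : Vf (Es c') γ l₂ := by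
    refine ⟨h2.1, fun v hv => ?_⟩
    rcases (clo_mem' hcla h1 hv).2 with h | h | h
    · exact h2.2 v h
    · have := h2.2 _ h
      rwa [map_add, h21, add_zero] at this
    · have := h2.2 _ h
      rwa [map_sub, h21, sub_zero] at this
  refine span_le.mpr ?_
  rintro u (rfl | hu)
  · exact hbW
  change u ∈ UU c γ l₂ x ⊔ span ℚ {β}
  have huU : u ∈ UU c β l₁ y := subset_span (Set.mem_insert_of_mem _ hu)
  -- the line through `u` meets the support of `c'` only in `u`
  have hline : ∀ t : ℚ, t ≠ 0 → c' (u + t • γ) = 0 := by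
    intro t ht
    by_contra h
    have h3 : u + t • γ ∈ UU c β l₁ y := by
      by_cases h4 : u + t • γ = 0
      · rw [h4]; exact zero_mem _
      · exact subset_span (Set.mem_insert_of_mem _ ⟨h4, h⟩)
    have h4 : t • γ ∈ UU c β l₁ y := by
      have := sub_mem h3 huU
      simpa using this
    exact hγ ((smul_mem_iff _ ht).mp h4)
  have hl0 : l₂ (u - l₂ u • γ) = 0 := by
    rw [map_sub, map_smul, h2.1, smul_eq_mul, mul_one, sub_self]
  have hne : clo l₂ γ x c' (u - l₂ u • γ) ≠ 0 := by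
    rw [(hcla V c' γ l₂ x h2').2 _ hl0]
    rcases h2'.2 u hu with h | h | h
    · rw [h, zero_smul, sub_zero, show u + γ = u + (1 : ℚ) • γ by module,
        show u - γ = u + (-1 : ℚ) • γ by module, hline 1 (by norm_num), hline (-1) (by norm_num),
        zero_mul, zero_mul, add_zero, add_zero]
      exact hu.2
    · rw [h, one_smul, sub_add_cancel, show u - γ - γ = u + (-2 : ℚ) • γ by module,
        show u - γ = u + (-1 : ℚ) • γ by module, hline (-2) (by norm_num),
        hline (-1) (by norm_num), zero_mul, add_zero, zero_add]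
      exact mul_ne_zero hu.2 x.ne_zero
    · rw [h, show u - (-1 : ℚ) • γ = u + γ by module, add_sub_cancel_right,
        show u + γ + γ = u + (2 : ℚ) • γ by module,
        show u + γ = u + (1 : ℚ) • γ by module, hline 2 (by norm_num),
        hline 1 (by norm_num), zero_mul, add_zero, zero_add]
      exact mul_ne_zero hu.2 (x⁻¹).ne_zero
  rw [hc', clo_comm l₁ l₂ β γ y x h12 h21 c] at hne
  obtain ⟨v, hv, huv⟩ := clo_supp l₁ β y _ hne
  have hvW : v ∈ UU c γ l₂ x ⊔ span ℚ {β} := by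
    by_cases h0 : v = 0
    · rw [h0]; exact zero_mem _
    · exact (le_sup_left : UU c γ l₂ x ≤ _) (subset_span (Set.mem_insert_of_mem _ ⟨h0, hv⟩))
  have h5 : u = v - l₁ v • β + l₂ u • γ := by rw [← huv]; module
  rw [h5]
  exact add_mem (sub_mem hvW (smul_mem _ _ hbW)) (smul_mem _ _ hgW)

end

theorem key (hvfe : VfeS) (hcla : ClaS) : KeyS := by
  intro V _ _ c _ hE hr
  have hne : (Es c).Nonempty := by
    by_contra h
    rw [Set.not_nonempty_iff_eq_empty] at h
    unfold rkc at hr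
    rw [h, span_empty, finrank_bot] at hr
    omega
  have hle : ∀ (β : V) (l : Dual ℚ V) (y : (RO ℤ)ˣ), β ∈ Es c → Vf (Es c) β l →
      finrank ℚ (UU c β l y) ≤ rkc c := fun β l y hβ hl =>
    finrank_mono (UU_le hcla hβ hl)
  by_cases hall : ∀ (β : V) (l : Dual ℚ V) (y : (RO ℤ)ˣ), β ∈ Es c → Vf (Es c) β l →
      finrank ℚ (UU c β l y) = rkc c
  · obtain ⟨γ, hγ⟩ := hne
    obtain ⟨l, hl⟩ := (hvfe V _ hE).1 γ hγ hγ.1
    refine ⟨γ, l, 1, hγ, hl, fun x _ => ?_, fun x => ?_⟩
    · rw [← fr_UU hcla hl]; exact hall γ l x hγ hl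
    · have := hall γ l x hγ hl
      rw [fr_UU hcla hl] at this
      omega
  push Not at hall
  obtain ⟨β₀, l₀, y₀, hβ₀, hl₀, hlt₀⟩ := hall
  have hex : ∃ n : ℕ, 0 < n ∧ ∃ (β : V) (l : Dual ℚ V) (y : (RO ℤ)ˣ), β ∈ Es c ∧
      Vf (Es c) β l ∧ finrank ℚ (UU c β l y) + n = rkc c := by
    refine ⟨rkc c - finrank ℚ (UU c β₀ l₀ y₀), ?_, β₀, l₀, y₀, hβ₀, hl₀, ?_⟩
    · have := hle β₀ l₀ y₀ hβ₀ hl₀
      omega
    · have := hle β₀ l₀ y₀ hβ₀ hl₀
      omega
  classical
  obtain ⟨hg0, β, l, y, hβ, hl, hfr⟩ := Nat.find_spec hex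
  set g := Nat.find hex with hg
  have hmin : ∀ (β : V) (l : Dual ℚ V) (y : (RO ℤ)ˣ), β ∈ Es c → Vf (Es c) β l →
      finrank ℚ (UU c β l y) = rkc c ∨ finrank ℚ (UU c β l y) + g ≤ rkc c := by
    intro β l y hβ hl
    by_contra hcon
    push Not at hcon
    have h1 := hle β l y hβ hl
    have h2 := Nat.find_min' hex (m := rkc c - finrank ℚ (UU c β l y))
      ⟨by omega, β, l, y, hβ, hl, by omega⟩
    omega
  -- an exponent outside `U`
  have hout : ∀ W : Submodule ℚ V, W ≤ span ℚ (Es c) → finrank ℚ W < rkc c →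
      ∃ γ ∈ Es c, γ ∉ W := by
    intro W hW hlt
    by_contra hcon
    push Not at hcon
    have h1 : span ℚ (Es c) ≤ W := span_le.mpr hcon
    have h2 : W = span ℚ (Es c) := le_antisymm hW h1
    rw [h2] at hlt
    exact absurd hlt (lt_irrefl _)
  obtain ⟨γ, hγ, hγU⟩ := hout (UU c β l y) (UU_le hcla hβ hl) (by omega)
  have hbU : β ∈ UU c β l y := subset_span (Set.mem_insert _ _)
  have hβ0 : β ≠ 0 := hβ.1
  have hγ0 : γ ≠ 0 := hγ.1
  have hnb : ∀ t : ℚ, t • β ≠ γ := fun t h => hγU (h ▸ smul_mem _ _ hbU)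
  have hind : LinearIndepOn ℚ id ({β, γ} : Set V) := linearIndepOn_id_pair hβ0 hnb
  have hbg : β ≠ γ := fun h => hnb 1 (by rw [one_smul, h])
  obtain ⟨l₁, l₂, h1, h2, h12, h21⟩ := (hvfe V _ hE).2 β hβ γ hγ hind hbg
  have hUeq : UU c β l₁ y = UU c β l y :=
    le_antisymm (UU_indep_le hcla hl h1) (UU_indep_le hcla h1 hl)
  set U := UU c β l y with hU
  have hγU1 : γ ∉ UU c β l₁ y := by rw [hUeq]; exact hγU
  have hgx : ∀ x : (RO ℤ)ˣ, γ ∈ UU c γ l₂ x := fun x => subset_span (Set.mem_insert _ _)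
  have hsup : ∀ x : (RO ℤ)ˣ, U ≤ UU c γ l₂ x ⊔ span ℚ {β} := fun x => by
    have := UU_le_sup hcla x h1 h2 h12 h21 hγU1
    rwa [hUeq] at this
  -- not bad
  have hgood : ∀ x : (RO ℤ)ˣ, β ∈ UU c γ l₂ x → finrank ℚ (UU c γ l₂ x) = rkc c := by
    intro x hx
    rcases hmin γ l₂ x hγ h2 with h | h
    · exact h
    exfalso
    have h3 : U ⊔ span ℚ {γ} ≤ UU c γ l₂ x := by
      refine sup_le ((hsup x).trans (sup_le le_rfl ?_)) ?_
      · exact (span_singleton_le_iff_mem _ _).mpr hx
      · exact (span_singleton_le_iff_mem _ _).mpr (hgx x)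
    have h4 := finrank_mono h3
    rw [fr_insert U hγU] at h4
    omega
  -- bad
  have hbad : ∀ x : (RO ℤ)ˣ, β ∉ UU c γ l₂ x →
      finrank ℚ ↥(UU c γ l₂ x ⊔ span ℚ {β}) = finrank ℚ (UU c γ l₂ x) + 1 ∧
      finrank ℚ U ≤ finrank ℚ (UU c γ l₂ x) ∧
      c β + c (β + γ) * (x : RO ℤ) + c (β - γ) * ((x⁻¹ : (RO ℤ)ˣ) : RO ℤ) = 0 := by
    intro x hx
    have h3 := fr_insert (UU c γ l₂ x) hx
    refine ⟨h3, ?_, ?_⟩
    · have h4 : U ⊔ span ℚ {γ} ≤ UU c γ l₂ x ⊔ span ℚ {β} := by
        refine sup_le (hsup x) ?_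
        exact (span_singleton_le_iff_mem _ _).mpr
          ((le_sup_left : UU c γ l₂ x ≤ _) (hgx x))
      have h5 := finrank_mono h4
      rw [fr_insert U hγU, h3] at h5
      omega
    · have h6 := kill0 hcla h2 hx
      rwa [h21, zero_smul, sub_zero] at h6
  have hbadR : ∀ x : (RO ℤ)ˣ, β ∉ UU c γ l₂ x → finrank ℚ (UU c γ l₂ x) + g = rkc c := by
    intro x hx
    rcases hmin γ l₂ x hγ h2 with h | h
    · exfalso
      have h3 : UU c γ l₂ x = span ℚ (Es c) :=
        eq_of_le_of_finrank_eq (UU_le hcla hγ h2) h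
      exact hx (h3 ▸ subset_span hβ)
    · have := (hbad x hx).2.1
      omega
  have hpq : ∀ x : (RO ℤ)ˣ, rkc (clo l₂ γ x c) + 1 = finrank ℚ (UU c γ l₂ x) := fun x =>
    (fr_UU hcla h2).symm
  by_cases hg1 : g = 1
  · -- at most one bad load
    have huniq : ∀ x x' : (RO ℤ)ˣ, β ∉ UU c γ l₂ x → β ∉ UU c γ l₂ x' → x = x' := by
      intro x x' hx hx'
      have e1 := (hbad x hx).2.2
      have e2 := (hbad x' hx').2.2
      by_cases h3 : c (β + γ) = 0
      · rw [h3, zero_mul, add_zero] at e1 e2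
        have h4 : c (β - γ) ≠ 0 := by
          intro h4
          rw [h4, zero_mul, add_zero] at e1
          exact hβ.2 e1
        have h5 : c (β - γ) * (((x⁻¹ : (RO ℤ)ˣ) : RO ℤ) - ((x'⁻¹ : (RO ℤ)ˣ) : RO ℤ)) = 0 := by
          linear_combination e1 - e2
        rcases mul_eq_zero.mp h5 with h6 | h6
        · exact absurd h6 h4
        · exact inv_injective (Units.ext (sub_eq_zero.mp h6))
      · have h4 : c (β - γ) = 0 := by
          by_contra h4
          have hp : β - γ ∈ Es c := ⟨fun h => hnb 1 (by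
            rw [one_smul]; exact sub_eq_zero.mp h), h4⟩
          have hq : β + γ ∈ Es c := ⟨fun h => hnb (-1) (by
            rw [neg_one_smul]; exact neg_eq_of_add_eq_zero_right h), h3⟩
          refine two hvfe hE hp hq hγ (by module) hp.1 ?_
          intro h5
          obtain ⟨t, ht⟩ := mem_span_singleton.mp h5
          have h6 : t • β = (1 + t) • γ := by
            linear_combination (norm := module) ht
          by_cases h7 : 1 + t = 0
          · rw [h7, zero_smul] at h6
            rcases smul_eq_zero.mp h6 with h8 | h8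
            · rw [h8] at h7; norm_num at h7
            · exact hβ0 h8
          · apply hnb ((1 + t)⁻¹ * t)
            rw [mul_smul, h6, smul_smul, inv_mul_cancel₀ h7, one_smul]
        rw [h4, zero_mul, add_zero] at e1 e2
        have h5 : c (β + γ) * ((x : RO ℤ) - (x' : RO ℤ)) = 0 := by
          linear_combination e1 - e2
        rcases mul_eq_zero.mp h5 with h6 | h6
        · exact absurd h6 h3
        · exact Units.ext (sub_eq_zero.mp h6)
    have hx0 : ∃ x₀ : (RO ℤ)ˣ, ∀ x, x ≠ x₀ → β ∈ UU c γ l₂ x := by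
      by_cases h : ∃ x₀, β ∉ UU c γ l₂ x₀
      · obtain ⟨x₀, hx₀⟩ := h
        refine ⟨x₀, fun x hx => ?_⟩
        by_contra h3
        exact hx (huniq x x₀ h3 hx₀)
      · push Not at h
        exact ⟨1, fun x _ => h x⟩
    obtain ⟨x₀, hx₀⟩ := hx0
    refine ⟨γ, l₂, x₀, hγ, h2, fun x hx => ?_, fun x => ?_⟩
    · rw [hpq x]
      exact hgood x (hx₀ x hx)
    · have h3 := hpq x
      have h4 := hle γ l₂ x hγ h2
      by_cases h5 : β ∈ UU c γ l₂ x
      · have := hgood x h5
        omega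
      · have := (hbad x h5).2.1
        omega
  · -- no bad load
    have hnobad : ∀ x : (RO ℤ)ˣ, β ∈ UU c γ l₂ x := by
      intro x
      by_contra hx
      obtain ⟨h3, h4, -⟩ := hbad x hx
      have h5 := hbadR x hx
      set W := UU c γ l₂ x ⊔ span ℚ {β} with hW
      have hbW : β ∈ W := (le_sup_right : _ ≤ W) (mem_span_singleton_self β)
      have hgW : γ ∈ W := (le_sup_left : UU c γ l₂ x ≤ W) (hgx x)
      have hWE : W ≤ span ℚ (Es c) :=
        sup_le (UU_le hcla hγ h2) ((span_singleton_le_iff_mem _ _).mpr (subset_span hβ))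
      obtain ⟨γ₂, hγ₂, hγ₂W⟩ := hout W hWE (by omega)
      have hUW : U ≤ W := hsup x
      have hxW : UU c γ l₂ x ≤ W := le_sup_left
      -- `δ`
      obtain ⟨τ, hτ, hδ⟩ : ∃ τ : ℚ, (τ = 1 ∨ τ = -1) ∧ γ₂ + τ • γ ∈ Es c := by
        rcases kill hcla hvfe hE hγ h2 hγ₂ (fun h => hγ₂W (hxW h)) with h | h
        · exact ⟨1, Or.inl rfl, by rwa [one_smul]⟩
        · exact ⟨-1, Or.inr rfl, by rwa [neg_one_smul, ← sub_eq_add_neg]⟩
      have hδW : γ₂ + τ • γ ∉ W := by
        intro h
        have := sub_mem h (smul_mem _ τ hgW)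
        rw [add_sub_cancel_right] at this
        exact hγ₂W this
      obtain ⟨i₁, hi1, hi1'⟩ := pair hcla hvfe hE hβ hl hγ hγU
      obtain ⟨i₂, hi2, hi2'⟩ := pair hcla hvfe hE hβ hl hγ₂ (fun h => hγ₂W (hUW h))
      obtain ⟨i₃, hi3, hi3'⟩ := pair hcla hvfe hE hβ hl hδ (fun h => hδW (hUW h))
      -- the test
      have test : ∀ (a b : ℚ), γ - a • β ∈ Es c → γ₂ - b • β ∈ Es c → ∀ d : ℚ,
          γ₂ + τ • γ - d • β ∈ Es c →
          τ * a + b - d = 0 ∨ τ * a + b - d = 1 ∨ τ * a + b - d = -1 := by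
        intro a b ha hb d hd
        have hga : γ - a • β ∈ W := sub_mem hgW (smul_mem _ _ hbW)
        have hnu : γ - a • β ∉ span ℚ {β} := by
          intro h
          obtain ⟨t, ht⟩ := mem_span_singleton.mp h
          exact hnb (t + a) (by linear_combination (norm := module) ht)
        have hi : LinearIndepOn ℚ id ({γ - a • β, γ₂ - b • β} : Set V) := by
          refine linearIndepOn_id_pair ha.1 fun t ht => hγ₂W ?_
          have h6 : γ₂ = t • (γ - a • β) + b • β := by
            linear_combination (norm := module) -ht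
          rw [h6]
          exact add_mem (smul_mem _ _ hga) (smul_mem _ _ hbW)
        have hi' : β ∉ span ℚ ({γ - a • β, γ₂ - b • β} : Set V) := by
          intro h
          obtain ⟨s, t, hst⟩ := mem_span_pair.mp h
          by_cases ht : t = 0
          · rw [ht, zero_smul, add_zero] at hst
            have hs : s ≠ 0 := by
              rintro rfl
              rw [zero_smul] at hst
              exact hβ0 hst.symm
            apply hnu
            rw [mem_span_singleton]
            exact ⟨s⁻¹, by rw [← hst, inv_smul_smul₀ hs]; exact (by rw [hst])⟩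
          · apply hγ₂W
            have h6 : t • γ₂ = β - s • (γ - a • β) + (t * b) • β := by
              linear_combination (norm := module) hst
            have h7 : t • γ₂ ∈ W := by
              rw [h6]
              exact add_mem (sub_mem hbW (smul_mem _ _ hga)) (smul_mem _ _ hbW)
            exact (smul_mem_iff _ ht).mp h7
        exact triple hE ha hb hβ hi hi' hd (s := τ) (t := 1) (k := τ * a + b - d) (by module)
      have hA : ∀ v : V, ∀ i : ℤ, v - (i : ℚ) • β + β ∈ Es c → v - ((i - 1 : ℤ) : ℚ) • β ∈ Es c := by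
        intro v i h
        have : v - ((i - 1 : ℤ) : ℚ) • β = v - (i : ℚ) • β + β := by
          push_cast
          module
        rwa [this]
      have j1 := hA _ _ hi1'
      have j2 := hA _ _ hi2'
      have j3 := hA _ _ hi3'
      rcases hτ with rfl | rfl
      · have t1 := test _ _ hi1 hi2 _ j3
        have t2 := test _ _ j1 j2 _ hi3
        push_cast at t1 t2
        rcases t1 with t1 | t1 | t1 <;> rcases t2 with t2 | t2 | t2 <;> linarith
      · have t1 := test _ _ j1 hi2 _ j3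
        have t2 := test _ _ hi1 j2 _ hi3
        push_cast at t1 t2
        rcases t1 with t1 | t1 | t1 <;> rcases t2 with t2 | t2 | t2 <;> linarith
    refine ⟨γ, l₂, 1, hγ, h2, fun x _ => ?_, fun x => ?_⟩
    · rw [hpq x]
      exact hgood x (hnobad x)
    · have h3 := hpq x
      have := hgood x (hnobad x)
      omega

end Pool.Agent.B5.Nr.Key

namespace Pool.Agent.B5.Nr

theorem key (hvfe : VfeS) (hcla : ClaS) : KeyS := Key.key hvfe hcla

end Pool.Agent.B5.Nr
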