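import Pool.Agent.Lib.MP_b5021c_nt.E1.H80.Iface
import Pool.Agent.Lib.MP_b5021c_nt.E1.Snt

/-!
# MP_b5021c_nt, E1 for all `θ ≥ 2` (finding 3478): row SNR (transfer)
-/

namespace Pool.Agent.B5.Nr.Snr

open Submodule Module
open Pool.Agent.B5 Pool.Agent.B5.H36 Pool.Agent.B5.E.H19 Pool.Agent.B5.E1

variable {L : Type} [AddCommGroup L] [Module.Free ℤ L] [Module.Finite ℤ L]

/-- The element as a finitely supported function on a rational space. -/
noncomputable def cT (T : AO ℤ L) : (Fin (finrank ℤ L) → ℚ) →₀ RO ℤ :=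
  T.coeff.embDomain ⟨jL L, jL_inj⟩

theorem cT_apply (T : AO ℤ L) (a : L) : cT T (jL L a) = T.coeff a :=
  Finsupp.embDomain_apply_self (⟨jL L, jL_inj⟩ : L ↪ (Fin (finrank ℤ L) → ℚ)) T.coeff a

theorem cT_notin (T : AO ℤ L) {v : Fin (finrank ℤ L) → ℚ} (hv : v ∉ Set.range (jL L)) :
    cT T v = 0 :=
  Finsupp.embDomain_of_notMem_range _ _ _ hv

theorem cT_vz (T : AO ℤ L) (z : Circle) (χ : AddChar (Fin (finrank ℤ L) → ℚ) Circle) :
    vz (cT T) z χ = ev z (χ.compAddMonoidHom (jL L).toAddMonoidHom) T := by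
  unfold ev vz cT
  rw [RingHom.comp_apply, evC_apply, Finsupp.sum_embDomain]
  have h1 : (spec z T).coeff = T.coeff.mapRange (evR z) (map_zero _) := by
    ext a
    rw [spec_coeff, Finsupp.mapRange_apply]
  rw [h1, Finsupp.sum_mapRange_index (fun a => zero_mul _)]
  rfl

theorem cT_NP {T : AO ℤ L} (hT : Npos T) : NP (cT T) := by
  refine ⟨fun v => ?_, fun z χ => ?_⟩
  · by_cases hv : v ∈ Set.range (jL L)
    · obtain ⟨a, rfl⟩ := hv
      rw [← map_neg, cT_apply, cT_apply]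
      conv_lhs => rw [← hT.1]
      rw [sharp_coeff', neg_neg]
    · have hv' : -v ∉ Set.range (jL L) := by
        rintro ⟨a, ha⟩
        exact hv ⟨-a, by rw [map_neg, ha, neg_neg]⟩
      rw [cT_notin T hv, cT_notin T hv', map_zero]
  · rw [cT_vz]
    exact hT.2 z _

theorem cT_Es (T : AO ℤ L) : Es (cT T) = jL L '' (supp T \ {0}) := by
  ext v
  constructor
  · rintro ⟨hv0, hv⟩
    by_cases hr : v ∈ Set.range (jL L)
    · obtain ⟨a, rfl⟩ := hr
      rw [cT_apply] at hv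
      refine ⟨a, ⟨hv, ?_⟩, rfl⟩
      rintro (rfl : a = 0)
      exact hv0 (map_zero _)
    · exact absurd (cT_notin T hr) hv
  · rintro ⟨a, ⟨ha, ha0⟩, rfl⟩
    refine ⟨fun h => ha0 ?_, by rw [cT_apply]; exact ha⟩
    apply jL_inj
    rw [h, map_zero]

theorem cT_rkc (T : AO ℤ L) : rkc (cT T) = rk (supp T) := by
  unfold rkc
  rw [cT_Es, rk_rat (jL L) jL_inj]
  unfold rk
  rw [Submodule.span_sdiff_singleton_zero]

theorem cT_zero (T : AO ℤ L) : cT T 0 = T.coeff 0 := by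
  rw [← map_zero (jL L), cT_apply]

theorem snr (hamb : AmbS) (hsrz : SrzS) : SnrS := by
  intro L _ _ _ T a ha hT0 hT
  have h0 : cT T ≠ 0 := by
    intro h
    apply hT0
    ext x
    rw [← cT_apply, h]
    rfl
  have h1 := hsrz _ (cT T) a ha (cT_NP hT) h0
  rw [cT_rkc, cT_zero] at h1
  rw [(hamb a).2.2 (lt_of_le_of_lt ha (by norm_num))]
  exact ⟨by linarith [h1.1], fun h => by
    have := h1.2 (by linarith)
    linarith⟩

end Pool.Agent.B5.Nr.Snr

namespace Pool.Agent.B5.Nr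

theorem snr (hamb : AmbS) (hsrz : SrzS) : SnrS := Snr.snr hamb hsrz

end Pool.Agent.B5.Nr
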