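import Pool.Agent.Lib.MP_b5021c_nt.E1.H80.Iface
import Pool.Agent.Lib.MP_b5021c_nt.B.H24.B5u
import Pool.Agent.Lib.MP_b5021c_nt.B.H05.Pmf

/-!
# MP_b5021c_nt, E1 for all `θ ≥ 2` (finding 3478): row SRZ (the induction)
-/

namespace Pool.Agent.B5.Nr.Srz

open Submodule Module
open scoped LaurentPolynomial

variable {V : Type} [AddCommGroup V] [Module ℚ V]

theorem rsh_inv (x : (RO ℤ)ˣ) : rsh (x : RO ℤ) = ((x⁻¹ : (RO ℤ)ˣ) : RO ℤ) := by
  have h := Pool.Agent.B5.H24.rsh_unit x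
  calc rsh (x : RO ℤ) = rsh (x : RO ℤ) * ((x : RO ℤ) * ((x⁻¹ : (RO ℤ)ˣ) : RO ℤ)) := by
        rw [Units.mul_inv, mul_one]
    _ = ((x⁻¹ : (RO ℤ)ˣ) : RO ℤ) := by rw [← mul_assoc, h, one_mul]

/-- The constant coefficient of a closing. -/
theorem clo_zero_coef (hcla : ClaS) {c : V →₀ RO ℤ} {γ : V} {l : Dual ℚ V} (x : (RO ℤ)ˣ)
    (hl : Vf (Es c) γ l) (hs : ∀ v, c (-v) = rsh (c v)) :
    clo l γ x c 0 = c 0 + c γ * (x : RO ℤ) + rsh (c γ * (x : RO ℤ)) := by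
  rw [(hcla V c γ l x hl).2 0 (map_zero l), zero_add, zero_sub, hs, map_mul, rsh_inv]

theorem rsh_coeff_zero (p : RO ℤ) : (rsh p).coeff 0 = p.coeff 0 := by
  rw [Pool.Agent.B5.H05.rsh_coeff, neg_zero]
  rfl

theorem srz (hamb : AmbS) (hbas : BasS) (hleg : LegS) (humr : UmrS) (hcln : ClnS) (hcla : ClaS)
    (hnzr : NzrS) (hcf0 : Cf0S) (hkey : KeyS) : SrzS := by
  intro V _ _ c a ha
  obtain ⟨hadd, hsym, -⟩ := hamb a
  suffices H : ∀ n : ℕ, ∀ c : V →₀ RO ℤ, rkc c = n → NP c → c ≠ 0 → (rkc c : ℝ) + 1 ≤ Am a (c 0) ∧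
      ((rkc c : ℤ) + 2 ≤ (c 0).coeff 0 → (rkc c : ℝ) + 2 - 2 * |a| ≤ Am a (c 0)) from
    fun h1 h2 => H _ c rfl h1 h2
  clear c
  intro n
  induction n using Nat.strong_induction_on with
  | _ n ih =>
  intro c hcn hNP hc0
  -- unimodular reduction
  obtain ⟨c', hNP', hc'0, hUM', hrk'⟩ := humr V c hNP
  have hc00 : c 0 ≠ 0 := fun h => hc0 ((hcf0 V c hNP).2 h)
  rw [← hc'0, ← hrk']
  have hcn' : rkc c' = n := by rw [hrk', hcn]
  rw [← hc'0] at hc00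
  clear hrk' hc'0 hcn hNP hc0 c
  rename' c' => c, hNP' => hNP, hUM' => hUM, hcn' => hcn
  have hs0 : rsh (c 0) = c 0 := by
    have := hNP.1 0
    rw [neg_zero] at this
    exact this.symm
  rcases Nat.eq_zero_or_pos n with hn | hn
  · -- rank zero
    rw [hcn, hn]
    obtain ⟨h1, h2⟩ := hbas a (c 0) ha hs0 (hcf0 V c hNP).1 hc00
    refine ⟨by simpa using h1, fun h => ?_⟩
    have := h2 (by simpa using h)
    simpa using this
  obtain ⟨γ, l, x₀, hγ, hl, hx₀, hall⟩ := hkey V c hNP.1 hUM (by omega)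
  set b := c γ with hb
  have hb0 : b ≠ 0 := hγ.2
  have ha1 : |a| ≤ 1 / 2 := ha
  -- the closed element is zero
  have hzero : ∀ (ε : ℤˣ) (m : ℤ), clo l γ (ld ε m) c = 0 →
      (rkc c : ℝ) + 1 ≤ Am a (c 0) ∧
      ((rkc c : ℤ) + 2 ≤ (c 0).coeff 0 → (rkc c : ℝ) + 2 - 2 * |a| ≤ Am a (c 0)) := by
    intro ε m h
    obtain ⟨hr1, q, hq, hq0, hqs, hqp⟩ := hnzr V c γ l ε m hNP hUM hγ hl h
    obtain ⟨h1, h2⟩ := hbas a q ha hqs hqp hq0
    rw [hr1, hq, hadd]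
    refine ⟨by push_cast; linarith, fun h3 => ?_⟩
    have h4 : (q + q).coeff 0 = q.coeff 0 + q.coeff 0 := rfl
    rw [h4] at h3
    have h5 := h2 (by push_cast at h3; omega)
    push_cast
    linarith
  -- the Poisson mean after closing
  have hAm : ∀ x : (RO ℤ)ˣ, Am a (clo l γ x c 0) = Am a (c 0) + 2 * Am a (b * (x : RO ℤ)) := by
    intro x
    rw [clo_zero_coef hcla x hl hNP.1, hadd, hadd, hsym]
    ring
  have hco : ∀ x : (RO ℤ)ˣ, (clo l γ x c 0).coeff 0 =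
      (c 0).coeff 0 + 2 * (b * (x : RO ℤ)).coeff 0 := by
    intro x
    rw [clo_zero_coef hcla x hl hNP.1]
    have h1 : (c 0 + c γ * (x : RO ℤ) + rsh (c γ * (x : RO ℤ))).coeff 0 =
      (c 0).coeff 0 + (c γ * (x : RO ℤ)).coeff 0 + (rsh (c γ * (x : RO ℤ))).coeff 0 := rfl
    rw [h1, rsh_coeff_zero]
    ring
  -- a good load without drop
  have hone : ∀ (ε : ℤˣ) (m : ℤ), rkc (clo l γ (ld ε m) c) + 1 = rkc c →
      Am a (b * (ld ε m : RO ℤ)) ≤ -(1 - |a|) →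
      (rkc c : ℝ) + 1 ≤ Am a (c 0) ∧
      ((rkc c : ℤ) + 2 ≤ (c 0).coeff 0 → (rkc c : ℝ) + 2 - 2 * |a| ≤ Am a (c 0)) := by
    intro ε m hr hg
    by_cases h0 : clo l γ (ld ε m) c = 0
    · exact hzero ε m h0
    have h1 := (ih (rkc (clo l γ (ld ε m) c)) (by omega) (clo l γ (ld ε m) c) rfl
      (hcln V c γ l ε m hNP hl) h0).1
    rw [hAm] at h1
    have h2 : (rkc c : ℝ) = (rkc (clo l γ (ld ε m) c) : ℝ) + 1 := by
      rw [← hr]; push_cast; ring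
    rw [h2]
    exact ⟨by linarith, fun _ => by linarith⟩
  rcases hleg a b ha hb0 with ⟨ε₁, ε₂, m₁, m₂, hne, hg₁, hg₂⟩ | ⟨ε, m, hg, hg'⟩
  · by_cases h : ld ε₁ m₁ = x₀
    · have h2 : ld ε₂ m₂ ≠ x₀ := fun h2 => hne (h.trans h2.symm)
      exact hone ε₂ m₂ (hx₀ _ h2) hg₂
    · exact hone ε₁ m₁ (hx₀ _ h) hg₁
  · by_cases hr : rkc (clo l γ (ld ε m) c) + 1 = rkc c
    · exact hone ε m hr (by linarith [abs_nonneg a])
    by_cases h0 : clo l γ (ld ε m) c = 0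
    · exact hzero ε m h0
    have hr2 := hall (ld ε m)
    have hr3 : rkc c = rkc (clo l γ (ld ε m) c) + 2 := by omega
    obtain ⟨h1, h2⟩ := ih (rkc (clo l γ (ld ε m) c)) (by omega) (clo l γ (ld ε m) c) rfl
      (hcln V c γ l ε m hNP hl) h0
    rw [hAm] at h1 h2
    rw [hco] at h2
    have h4 : (rkc c : ℝ) = (rkc (clo l γ (ld ε m) c) : ℝ) + 2 := by
      rw [hr3]; push_cast; ring
    have h5 : (rkc c : ℤ) = (rkc (clo l γ (ld ε m) c) : ℤ) + 2 := by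
      rw [hr3]; push_cast; ring
    refine ⟨by rw [h4]; linarith, fun h3 => ?_⟩
    rw [h4]
    rw [h5] at h3
    by_cases h6 : (rkc (clo l γ (ld ε m) c) : ℤ) + 2 ≤
        (c 0).coeff 0 + 2 * (b * (ld ε m : RO ℤ)).coeff 0
    · have := h2 h6
      linarith
    · have := hg' (by omega)
      linarith

end Pool.Agent.B5.Nr.Srz

namespace Pool.Agent.B5.Nr

theorem srz (hamb : AmbS) (hbas : BasS) (hleg : LegS) (humr : UmrS) (hcln : ClnS) (hcla : ClaS)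
    (hnzr : NzrS) (hcf0 : Cf0S) (hkey : KeyS) : SrzS :=
  Srz.srz hamb hbas hleg humr hcln hcla hnzr hcf0 hkey

end Pool.Agent.B5.Nr
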