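import Pool.Agent.Lib.MP_b5021c_nt.IfaceE2
import Pool.Agent.Lib.MP_b5021c_nt.B.H40.LoadBase

/-!
# MP_b5021c_nt, E1 for all `θ ≥ 2` (finding 3478): sharp SNT over `ℤ` for real `a`, `|a| ≤ 1/2`

Trigonometric polynomials in `w` with coefficients in `ℤ[z, 1/z]` are finitely supported functions
`c : V →₀ RO ℤ` on a rational vector space `V`.
-/

namespace Pool.Agent.B5.Nr

open Submodule Module
open scoped LaurentPolynomial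

/-- The Poisson mean at the real point `a`. -/
noncomputable def Am (a : ℝ) (p : RO ℤ) : ℝ := p.coeff.sum fun k c => (c : ℝ) * a ^ k.natAbs

/-- The load `ε z^m`. -/
noncomputable def ld (ε : ℤˣ) (m : ℤ) : (RO ℤ)ˣ := H40.uT ε m

section

variable {V : Type} [AddCommGroup V] [Module ℚ V]

/-- The value at `z`, `χ`. -/
noncomputable def vz (c : V →₀ RO ℤ) (z : Circle) (χ : AddChar V Circle) : ℂ :=
  c.sum fun v p => evR z p * (χ v : ℂ)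

/-- Non-negative (self-adjoint) trigonometric polynomials. -/
def NP (c : V →₀ RO ℤ) : Prop :=
  (∀ v, c (-v) = rsh (c v)) ∧ ∀ (z : Circle) (χ : AddChar V Circle), 0 ≤ (vz c z χ).re

/-- The non-zero exponents. -/
def Es (c : V →₀ RO ℤ) : Set V := {v | v ≠ 0 ∧ c v ≠ 0}

/-- The rank. -/
noncomputable def rkc (c : V →₀ RO ℤ) : ℕ := finrank ℚ (span ℚ (Es c))

/-- Unimodular sets: coordinates with respect to independent subsets are `0, 1, -1`. -/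
def UM (E : Set V) : Prop := ∀ B ⊆ E, LinearIndepOn ℚ id B → ∀ (l : Dual ℚ V), ∀ β ∈ B,
  l β = 1 → (∀ b ∈ B, b ≠ β → l b = 0) → ∀ v ∈ E, v ∈ span ℚ B → l v = 0 ∨ l v = 1 ∨ l v = -1

/-- `l` is a coordinate functional for `β`. -/
def Vf (E : Set V) (β : V) (l : Dual ℚ V) : Prop :=
  l β = 1 ∧ ∀ v ∈ E, l v = 0 ∨ l v = 1 ∨ l v = -1

/-- Closing `w^β = y` along the functional `l`, `l β = 1`. -/
noncomputable def clo (l : Dual ℚ V) (β : V) (y : (RO ℤ)ˣ) (c : V →₀ RO ℤ) : V →₀ RO ℤ :=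
  c.sum fun v p => Finsupp.single (v - l v • β) (p * ((y ^ ⌊l v⌋ : (RO ℤ)ˣ) : RO ℤ))

end

/-! ## One variable -/

/-- (AMB) `Am` is additive, symmetric, and is the Poisson mean. -/
def AmbS : Prop := ∀ a : ℝ, (∀ p q : RO ℤ, Am a (p + q) = Am a p + Am a q) ∧
  (∀ p : RO ℤ, Am a (rsh p) = Am a p) ∧ (|a| < 1 → ∀ p : RO ℤ, pmn (a : ℂ) p = Am a p)

/-- (BAS) the case of rank zero. -/
def BasS : Prop := ∀ (a : ℝ) (h : RO ℤ), |a| ≤ 1 / 2 → rsh h = h →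
  (∀ z : Circle, 0 ≤ (evR z h).re) → h ≠ 0 → 1 ≤ Am a h ∧ (2 ≤ h.coeff 0 → 2 - 2 * |a| ≤ Am a h)

/-- (LEG) Lemma G: two good loads, or one very good load. -/
def LegS : Prop := ∀ (a : ℝ) (b : RO ℤ), |a| ≤ 1 / 2 → b ≠ 0 →
  (∃ (ε₁ ε₂ : ℤˣ) (m₁ m₂ : ℤ), ld ε₁ m₁ ≠ ld ε₂ m₂ ∧ Am a (b * (ld ε₁ m₁ : RO ℤ)) ≤ -(1 - |a|) ∧
    Am a (b * (ld ε₂ m₂ : RO ℤ)) ≤ -(1 - |a|)) ∨
  ∃ (ε : ℤˣ) (m : ℤ), Am a (b * (ld ε m : RO ℤ)) ≤ -1 ∧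
    ((b * (ld ε m : RO ℤ)).coeff 0 ≤ -2 → Am a (b * (ld ε m : RO ℤ)) ≤ -(3 / 2 - |a|))

/-! ## Several variables -/

/-- (UMR) unimodular reduction. -/
def UmrS : Prop := ∀ (V : Type) [AddCommGroup V] [Module ℚ V] (c : V →₀ RO ℤ), NP c →
  ∃ c' : V →₀ RO ℤ, NP c' ∧ c' 0 = c 0 ∧ UM (Es c') ∧ rkc c' = rkc c

/-- (CLN) closings of non-negative elements. -/
def ClnS : Prop := ∀ (V : Type) [AddCommGroup V] [Module ℚ V] (c : V →₀ RO ℤ) (β : V)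
  (l : Dual ℚ V) (ε : ℤˣ) (m : ℤ), NP c → Vf (Es c) β l → NP (clo l β (ld ε m) c)

/-- (CLA) the coefficients of a closing. -/
def ClaS : Prop := ∀ (V : Type) [AddCommGroup V] [Module ℚ V] (c : V →₀ RO ℤ) (β : V)
  (l : Dual ℚ V) (y : (RO ℤ)ˣ), Vf (Es c) β l →
    (∀ v, l v ≠ 0 → clo l β y c v = 0) ∧
    ∀ v, l v = 0 → clo l β y c v = c v + c (v + β) * (y : RO ℤ) + c (v - β) * ((y⁻¹ : (RO ℤ)ˣ) : RO ℤ)

/-- (NZR) if the closed element is zero then the rank is one and the constant coefficient is twice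
a non-negative element (the closed value is a minimum, so the normal derivative vanishes:
`c (u + γ) * y = c (u - γ) * y⁻¹` for all `u` with `l u = 0`). -/
def NzrS : Prop := ∀ (V : Type) [AddCommGroup V] [Module ℚ V] (c : V →₀ RO ℤ) (γ : V)
  (l : Dual ℚ V) (ε : ℤˣ) (m : ℤ), NP c → UM (Es c) → γ ∈ Es c → Vf (Es c) γ l →
    clo l γ (ld ε m) c = 0 →
      rkc c = 1 ∧ ∃ q : RO ℤ, c 0 = q + q ∧ q ≠ 0 ∧ rsh q = q ∧ ∀ z : Circle, 0 ≤ (evR z q).re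

/-- (VFE) existence of coordinate functionals. -/
def VfeS : Prop := ∀ (V : Type) [AddCommGroup V] [Module ℚ V] (E : Set V), UM E →
  (∀ β ∈ E, β ≠ 0 → ∃ l : Dual ℚ V, Vf E β l) ∧
  ∀ β ∈ E, ∀ γ ∈ E, LinearIndepOn ℚ id ({β, γ} : Set V) → β ≠ γ →
    ∃ l₁ l₂ : Dual ℚ V, Vf E β l₁ ∧ Vf E γ l₂ ∧ l₁ γ = 0 ∧ l₂ β = 0

/-- (CF0) the constant coefficient of a non-negative element. -/
def Cf0S : Prop := ∀ (V : Type) [AddCommGroup V] [Module ℚ V] (c : V →₀ RO ℤ), NP c →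
  (∀ z : Circle, 0 ≤ (evR z (c 0)).re) ∧ (c 0 = 0 → c = 0)

/-- (KEY) for one exponent `γ` at most one load is bad, and there the rank drops by at most two. -/
def KeyS : Prop := ∀ (V : Type) [AddCommGroup V] [Module ℚ V] (c : V →₀ RO ℤ),
  (∀ v, c (-v) = rsh (c v)) → UM (Es c) → 1 ≤ rkc c →
    ∃ (γ : V) (l : Dual ℚ V) (x₀ : (RO ℤ)ˣ), γ ∈ Es c ∧ Vf (Es c) γ l ∧
      (∀ x : (RO ℤ)ˣ, x ≠ x₀ → rkc (clo l γ x c) + 1 = rkc c) ∧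
      (∀ x : (RO ℤ)ˣ, rkc c ≤ rkc (clo l γ x c) + 2 ∧ rkc (clo l γ x c) + 1 ≤ rkc c)

/-- (SRZ) sharp SNT. -/
def SrzS : Prop := ∀ (V : Type) [AddCommGroup V] [Module ℚ V] (c : V →₀ RO ℤ) (a : ℝ),
  |a| ≤ 1 / 2 → NP c → c ≠ 0 → (rkc c : ℝ) + 1 ≤ Am a (c 0) ∧
    ((rkc c : ℤ) + 2 ≤ (c 0).coeff 0 → (rkc c : ℝ) + 2 - 2 * |a| ≤ Am a (c 0))

/-- (SNR) sharp SNT in the format of chapter E2. -/
def SnrS : Prop := ∀ (L : Type) [AddCommGroup L] [Module.Free ℤ L] [Module.Finite ℤ L]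
  (T : AO ℤ L) (a : ℝ), |a| ≤ 1 / 2 → T ≠ 0 → Npos T →
    1 + (rk (supp T) : ℝ) ≤ pmn (a : ℂ) (T.coeff 0) ∧
    (2 + (rk (supp T) : ℤ) ≤ (T.coeff 0).coeff 0 →
      2 + (rk (supp T) : ℝ) - 2 * |a| ≤ pmn (a : ℂ) (T.coeff 0))

end Pool.Agent.B5.Nr
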